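import Pool.Agent.Helper36_X1.Stmts1

/-!
PD1: intersections.
-/

open scoped BigOperators

noncomputable section

namespace Pool.Agent.PP.X1.H76

open Pool.Agent.PP.X1 RGD

variable {ℓ : ℕ} {G : Type} [Group G] (R : RGD ℓ G)

theorem pd1_aux (hC : CloStmt) (hP : PelStmt) (v : List (Fin R.r)) :
    ∀ A A' : Set R.E, R.Clo A → R.Clo A' → A ⊆ R.pos → A' ⊆ R.pos →
    (∀ b ∈ A, R.sw v b ∈ R.neg) → (∀ b ∈ A', R.sw v b ∈ R.neg) →
    R.gp A ⊓ R.gp A' ≤ R.gp (A ∩ A') := by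
  induction v using List.reverseRecOn with
  | nil =>
    intro A A' _ _ hA _ hn _
    have h0 : A = ∅ := by
      apply Set.eq_empty_of_forall_notMem
      intro b hb
      exact R.not_pos_neg (hA hb) (hn b hb)
    rw [h0, gp_empty]
    exact inf_le_left.trans bot_le
  | append_singleton v i ih =>
    intro A A' cA cA' hA hA' hn hn' g hg
    obtain ⟨hg1, hg2⟩ := Subgroup.mem_inf.mp hg
    obtain ⟨-, -, -, -, -, cw, cr, -⟩ := hC ℓ G R
    obtain ⟨p1, p2, -, -, -, p6, p7⟩ := hP ℓ G R i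
    obtain ⟨x, hx, y, hy, e⟩ := p2 A cA hA g hg1
    obtain ⟨x', hx', y', hy', e'⟩ := p2 A' cA' hA' g hg2
    have hx1 : x ∈ R.X (R.a i) := p6 A hx
    have hx1' : x' ∈ R.X (R.a i) := p6 A' hx'
    have hy1 : y ∈ R.gp (R.pos \ R.ray i) :=
      R.gp_mono (Set.sdiff_subset_sdiff_left hA) hy
    have hy1' : y' ∈ R.gp (R.pos \ R.ray i) :=
      R.gp_mono (Set.sdiff_subset_sdiff_left hA') hy'
    have h1 : x'⁻¹ * x = y' * y⁻¹ := by
      have : x * y = x' * y' := by rw [← e, ← e']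
      calc x'⁻¹ * x = x'⁻¹ * (x * y) * y⁻¹ := by group
        _ = x'⁻¹ * (x' * y') * y⁻¹ := by rw [this]
        _ = y' * y⁻¹ := by group
    have h2 : x'⁻¹ * x = 1 := by
      apply p1 _ ((R.X (R.a i)).mul_mem ((R.X (R.a i)).inv_mem hx1') hx1)
      rw [h1]
      exact Subgroup.mul_mem _ hy1' (Subgroup.inv_mem _ hy1)
    have hxx : x = x' := (inv_mul_eq_one.mp h2).symm
    have hyy : y = y' := by
      rw [h2] at h1
      exact (mul_inv_eq_one.mp h1.symm).symm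
    rw [← hxx] at hx'
    rw [← hyy] at hy'
    have hxI : x ∈ R.gp (A ∩ A') :=
      R.gp_mono Set.inter_subset_left (p7 A A' cA cA' (Subgroup.mem_inf.mpr ⟨hx, hx'⟩))
    -- the part outside the ray
    have c1 := (cr A i cA hA).1
    have c1' := (cr A' i cA' hA').1
    have hB : R.sw [i] '' (A \ R.ray i) ⊆ R.pos := by
      rintro _ ⟨b, hb, rfl⟩
      exact R.s_pos (hA hb.1) hb.2
    have hB' : R.sw [i] '' (A' \ R.ray i) ⊆ R.pos := by
      rintro _ ⟨b, hb, rfl⟩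
      exact R.s_pos (hA' hb.1) hb.2
    have I := ih (R.sw [i] '' (A \ R.ray i)) (R.sw [i] '' (A' \ R.ray i)) (cw [i] _ c1)
      (cw [i] _ c1') hB hB' (by
        rintro _ ⟨b, hb, rfl⟩
        rw [← sw_append]
        exact hn b hb.1) (by
        rintro _ ⟨b, hb, rfl⟩
        rw [← sw_append]
        exact hn' b hb.1)
    have g1 : R.nw [i] * y * (R.nw [i])⁻¹ ∈ R.gp (R.sw [i] '' (A \ R.ray i)) :=
      (R.gp_nw c1.sub).mpr hy
    have g2 : R.nw [i] * y * (R.nw [i])⁻¹ ∈ R.gp (R.sw [i] '' (A' \ R.ray i)) :=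
      (R.gp_nw c1'.sub).mpr hy'
    have g3 := I (Subgroup.mem_inf.mpr ⟨g1, g2⟩)
    rw [← Set.image_inter (R.sw_injective [i])] at g3
    have g4 : y ∈ R.gp ((A \ R.ray i) ∩ (A' \ R.ray i)) :=
      (R.gp_nw (Set.inter_subset_left.trans c1.sub)).mp g3
    have hyI : y ∈ R.gp (A ∩ A') :=
      R.gp_mono (Set.inter_subset_inter Set.sdiff_subset Set.sdiff_subset) g4
    rw [e]
    exact Subgroup.mul_mem _ hxI hyI

theorem pd1 (hL : LngStmt) (hC : CloStmt) (hP : PelStmt) : Pd1Stmt := by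
  intro ℓ G _ R A A' cA cA' hA hA'
  apply le_antisymm
  · obtain ⟨w, -, hw⟩ := (hL ℓ G R Finset.univ).2
    have hlev : ∀ b ∈ R.pos, b ∈ R.lev Finset.univ := by
      intro b hb
      refine ⟨hb.1, ?_⟩
      obtain ⟨k, -, e⟩ := hb.2
      rw [e]
      apply Submodule.sum_mem
      intro j _
      apply Submodule.smul_mem
      apply Submodule.subset_span
      exact ⟨j, by simp, rfl⟩
    exact pd1_aux R hC hP w A A' cA cA' hA hA' (fun b hb => hw b ⟨hA hb, hlev b (hA hb)⟩)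
      (fun b hb => hw b ⟨hA' hb, hlev b (hA' hb)⟩)
  · exact le_inf (R.gp_mono Set.inter_subset_left) (R.gp_mono Set.inter_subset_right)

end Pool.Agent.PP.X1.H76
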