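import Pool.Agent.Helper36_X1.Stmts2

/-!
TRI: where the operator of a simple root is injective it is `-1`.
-/

open scoped BigOperators

noncomputable section

namespace Pool.Agent.PP.X1.H76

open Pool.Agent.Helper51_AWC Pool.Agent.Helper79_WRA Pool.Agent.PP Pool.Agent.PP.X1 RGD

/-- an `ℓ`-group acting on an abelian group of exponent `ℓ` fixes a nonzero vector -/
theorem exists_fixed {ℓ : ℕ} [hp : Fact ℓ.Prime] {V : Type*} [AddCommGroup V] {D : Type}
    [Group D] [Finite D] (hD : IsPGroup ℓ D) (L : D → V →+ V) (L_one : ∀ v, L 1 v = v)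
    (L_mul : ∀ d e v, L (d * e) v = L d (L e v)) (hV : ∀ v : V, ℓ • v = 0) {v : V}
    (hv : v ≠ 0) :
    ∃ w ∈ AddSubgroup.closure (Set.range fun d => L d v), w ≠ 0 ∧ ∀ d, L d w = w := by
  classical
  set W : AddSubgroup V := AddSubgroup.closure (Set.range fun d => L d v) with hW
  have hfg : AddGroup.FG W := AddGroup.closure_finite_fg (Set.range fun d => L d v)
  have htors : ∀ w : W, ℓ • w = 0 := fun w => Subtype.ext (hV w)
  have hfin : Finite W := by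
    apply AddCommGroup.finite_of_fg_isAddTorsion
    intro w
    exact isOfFinAddOrder_iff_nsmul_eq_zero.2 ⟨ℓ, hp.out.pos, htors w⟩
  have hvW : v ∈ W := by
    apply AddSubgroup.subset_closure
    exact ⟨1, L_one v⟩
  have hdvd : ℓ ∣ Nat.card W := by
    have h1 : addOrderOf (⟨v, hvW⟩ : W) = ℓ := by
      apply addOrderOf_eq_prime (htors _)
      intro h
      exact hv (congrArg Subtype.val h)
    rw [← h1]
    exact addOrderOf_dvd_natCard _
  have hmap : ∀ d : D, ∀ w ∈ W, L d w ∈ W := by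
    intro d w hw
    rw [hW] at hw ⊢
    induction hw using AddSubgroup.closure_induction with
    | mem x hx =>
      obtain ⟨e, rfl⟩ := hx
      apply AddSubgroup.subset_closure
      exact ⟨d * e, L_mul d e v⟩
    | zero => rw [map_zero]; exact AddSubgroup.zero_mem _
    | add x y _ _ hx hy => rw [map_add]; exact AddSubgroup.add_mem _ hx hy
    | neg x _ hx => rw [map_neg]; exact AddSubgroup.neg_mem _ hx
  let _ : MulAction D W :=
    { smul := fun d w => ⟨L d w, hmap d w w.2⟩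
      one_smul := fun w => Subtype.ext (L_one w)
      mul_smul := fun d e w => Subtype.ext (L_mul d e w) }
  have h0 : (0 : W) ∈ MulAction.fixedPoints D W := fun d => Subtype.ext (map_zero (L d))
  obtain ⟨w, hw, hne⟩ := hD.exists_fixed_point_of_prime_dvd_card_of_fixed_point W hdvd h0
  refine ⟨w, w.2, fun h => hne (Subtype.ext h.symm), fun d => congrArg Subtype.val (hw d)⟩

section memb

variable {ℓ : ℕ} {G : Type} [Group G] (R : RGD ℓ G) (J : Finset (Fin R.r))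

theorem T_le_PJ : R.T ≤ R.PJ J := le_sup_left

theorem X_le_PJ (i : Fin R.r) : R.X (R.a i) ≤ R.PJ J :=
  (R.X_le_gp (Or.inl (R.a_pos i))).trans le_sup_right

theorem Xn_le_PJ {i : Fin R.r} (hi : i ∈ J) : R.X (-R.a i) ≤ R.PJ J := by
  refine (R.X_le_gp (Or.inr ⟨R.neg_a_mem i, ?_⟩)).trans le_sup_right
  apply Submodule.neg_mem
  exact Submodule.subset_span ⟨i, hi, rfl⟩

theorem n_mem_PJ {i : Fin R.r} (hi : i ∈ J) : R.n i ∈ R.PJ J :=
  (sup_le (X_le_PJ R J i) (Xn_le_PJ R J hi)) (R.nmem i)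

/-- elements of the opposite root group in the Borel subgroup -/
theorem eq_one_of_mem_B [Finite G] [Fact ℓ.Prime] (i : Fin R.r) {v : G} (hv : v ∈ R.X (-R.a i))
    (hB : v ∈ R.B) : v = 1 := by
  have hneg : -R.a i ∈ R.neg := ⟨R.neg_a_mem i, by rw [neg_neg]; exact R.nn_a i⟩
  obtain ⟨u, hu, t, ht, e⟩ := R.mem_B.mp hB
  have hu1 : u = 1 := by
    have h1 : u ∈ R.U ⊓ (R.T ⊔ R.V) := by
      refine ⟨hu, ?_⟩
      have : u = v * t⁻¹ := by rw [e]; group
      rw [this]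
      exact Subgroup.mul_mem _ (Subgroup.mem_sup_right (R.X_le_V hneg hv))
        (Subgroup.mem_sup_left (R.T.inv_mem ht))
    rw [R.UV] at h1
    exact Subgroup.mem_bot.mp h1
  rw [hu1, one_mul] at e
  obtain ⟨j, hj⟩ := (R.pgrp _ (R.neg_a_mem i)) ⟨v, hv⟩
  have hj' : v ^ ℓ ^ j = 1 := congrArg Subtype.val hj
  have h2 : orderOf v ∣ ℓ ^ j := orderOf_dvd_of_pow_eq_one hj'
  have h3 : orderOf v ∣ Nat.card R.T := by
    rw [e]
    have := orderOf_dvd_natCard (⟨t, ht⟩ : R.T)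
    rwa [← Subgroup.orderOf_coe] at this
  have h4 : Nat.Coprime (ℓ ^ j) (Nat.card R.T) :=
    Nat.Coprime.pow_left _ ((Nat.Prime.coprime_iff_not_dvd Fact.out).mpr R.cop)
  have h5 : orderOf v = 1 := Nat.eq_one_of_dvd_coprimes h4 h2 h3
  exact orderOf_eq_one_iff.mp h5

/-- `n i` is not in the Borel subgroup -/
theorem n_not_mem_B (i : Fin R.r) : R.n i ∉ R.B := by
  intro h
  have hneg : -R.a i ∈ R.neg := ⟨R.neg_a_mem i, by rw [neg_neg]; exact R.nn_a i⟩
  apply R.nt i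
  rw [Subgroup.eq_bot_iff_forall]
  intro x hx
  have h1 : R.n i * x * (R.n i)⁻¹ ∈ R.U := R.B_U h (R.X_le_U (R.a_pos i) hx)
  have h2 : R.n i * x * (R.n i)⁻¹ ∈ R.X (-R.a i) := by
    rw [← R.s_self]
    exact (R.nX' (R.mem i)).mpr hx
  have h3 : R.n i * x * (R.n i)⁻¹ ∈ R.U ⊓ R.V := ⟨h1, R.X_le_V hneg h2⟩
  rw [R.U_inf_V] at h3
  have h4 := Subgroup.mem_bot.mp h3
  have h5 : x = (R.n i)⁻¹ * (R.n i * x * (R.n i)⁻¹) * R.n i := by group
  rw [h5, h4]; group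

end memb

section acts

variable {ℓ : ℕ} {F : Type} [Field F] {G : Type} [Group G] {R : RGD ℓ G}
  {J : Finset (Fin R.r)} {k : ℕ} (ρ : R.PJ J →* Matrix (Fin k) (Fin k) F)

/-- the action on vectors -/
def ac (g : G) (v : Fin k → F) : Fin k → F := (ro ρ g).mulVec v

theorem ac_one (v : Fin k → F) : ac ρ 1 v = v := by
  rw [ac, ro_one, Matrix.one_mulVec]

theorem ac_mul {g h : G} (hg : g ∈ R.PJ J) (hh : h ∈ R.PJ J) (v : Fin k → F) :
    ac ρ (g * h) v = ac ρ g (ac ρ h v) := by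
  rw [ac, ro_mul ρ hg hh, ← Matrix.mulVec_mulVec]; rfl

theorem ac_add (g : G) (v w : Fin k → F) : ac ρ g (v + w) = ac ρ g v + ac ρ g w :=
  Matrix.mulVec_add _ _ _

theorem ac_neg (g : G) (v : Fin k → F) : ac ρ g (-v) = - ac ρ g v := Matrix.mulVec_neg _ _

theorem ac_zero (g : G) : ac ρ g (0 : Fin k → F) = 0 := Matrix.mulVec_zero _

theorem ac_sum {ι : Type*} (s : Finset ι) (g : G) (f : ι → Fin k → F) :
    ac ρ g (∑ j ∈ s, f j) = ∑ j ∈ s, ac ρ g (f j) := by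
  unfold ac; exact Matrix.mulVec_sum _ _ _

theorem Ai_sum [Finite G] (i : Fin R.r) [Fintype (R.X (R.a i))] (v : Fin k → F) :
    (Ai R ρ i).mulVec v = ∑ x : R.X (R.a i), ac ρ ((x : G) * R.n i) v := by
  rw [Ai, finsum_eq_sum_of_fintype, Matrix.sum_mulVec]; rfl

/-- freeness -/
theorem free [Fact ℓ.Prime] [Finite G] (hch : CharP F ℓ) {i : Fin R.r} (hi : i ∈ J)
    [Fintype (R.X (R.a i))]
    (L : Submodule F (Fin k → F)) (hinj : ∀ v ∈ L, (Ai R ρ i).mulVec v = 0 → v = 0)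
    (w : R.X (R.a i) → (Fin k → F)) (hw : ∀ x, w x ∈ L)
    (h0 : ∑ x : R.X (R.a i), ac ρ ((x : G) * R.n i) (w x) = 0) : w = 0 := by
  classical
  by_contra hne
  have hn : R.n i ∈ R.PJ J := n_mem_PJ R J hi
  obtain ⟨Lt, hLt⟩ : ∃ Lt : R.X (R.a i) → ((R.X (R.a i) → (Fin k → F)) →+
      (R.X (R.a i) → (Fin k → F))), ∀ y f x, Lt y f x = f (y⁻¹ * x) :=
    ⟨fun y => ⟨⟨fun f x => f (y⁻¹ * x), rfl⟩, fun f g => rfl⟩, fun y f x => rfl⟩
  obtain ⟨w', hw', hw0, hfix⟩ := exists_fixed (R.pgrp _ (R.mem i)) Lt (by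
      intro f; funext x; rw [hLt, inv_one, one_mul]) (by
      intro y z f; funext x
      rw [hLt, hLt, hLt, mul_inv_rev, mul_assoc]) (by
      intro f
      funext x j
      have : (ℓ : F) = 0 := CharP.cast_eq_zero F ℓ
      rw [Pi.smul_apply, Pi.smul_apply, nsmul_eq_mul, this, zero_mul]; rfl) hne
  have hp : (∀ x, w' x ∈ L) ∧ ∑ x : R.X (R.a i), ac ρ ((x : G) * R.n i) (w' x) = 0 := by
    clear hw0 hfix
    induction hw' using AddSubgroup.closure_induction with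
    | mem f hf =>
      obtain ⟨y, rfl⟩ := hf
      refine ⟨fun x => by change Lt y w x ∈ L; rw [hLt]; exact hw _, ?_⟩
      change ∑ x : R.X (R.a i), ac ρ ((x : G) * R.n i) (Lt y w x) = 0
      have h1 : ∀ x : R.X (R.a i), ac ρ (((y * x : R.X (R.a i)) : G) * R.n i)
          (Lt y w (y * x)) = ac ρ (y : G) (ac ρ ((x : G) * R.n i) (w x)) := by
        intro x
        rw [hLt, inv_mul_cancel_left, Subgroup.coe_mul, mul_assoc,
          ac_mul ρ (X_le_PJ R J i y.2) (Subgroup.mul_mem _ (X_le_PJ R J i x.2) hn)]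
      rw [← Equiv.sum_comp (Equiv.mulLeft y)
        (fun x : R.X (R.a i) => ac ρ ((x : G) * R.n i) (Lt y w x))]
      calc ∑ x : R.X (R.a i), ac ρ (((y * x : R.X (R.a i)) : G) * R.n i) (Lt y w (y * x))
          = ∑ x : R.X (R.a i), ac ρ (y : G) (ac ρ ((x : G) * R.n i) (w x)) :=
            Finset.sum_congr rfl fun x _ => h1 x
        _ = ac ρ (y : G) (∑ x : R.X (R.a i), ac ρ ((x : G) * R.n i) (w x)) :=
            (ac_sum ρ _ _ _).symm
        _ = 0 := by rw [h0, ac_zero]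
    | zero =>
      refine ⟨fun x => L.zero_mem, Finset.sum_eq_zero fun x _ => ac_zero ρ _⟩
    | add f g _ _ hf hg =>
      refine ⟨fun x => L.add_mem (hf.1 x) (hg.1 x), ?_⟩
      have : ∀ x : R.X (R.a i), ac ρ ((x : G) * R.n i) ((f + g) x) =
          ac ρ ((x : G) * R.n i) (f x) + ac ρ ((x : G) * R.n i) (g x) :=
        fun x => ac_add ρ _ _ _
      rw [Finset.sum_congr rfl fun x _ => this x, Finset.sum_add_distrib, hf.2, hg.2, add_zero]
    | neg f _ hf =>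
      refine ⟨fun x => L.neg_mem (hf.1 x), ?_⟩
      have : ∀ x : R.X (R.a i), ac ρ ((x : G) * R.n i) ((-f) x) =
          - ac ρ ((x : G) * R.n i) (f x) := fun x => ac_neg ρ _ _
      rw [Finset.sum_congr rfl fun x _ => this x, Finset.sum_neg_distrib, hf.2, neg_zero]
  have hconst : ∀ x, w' x = w' 1 := by
    intro x
    have := congrFun (hfix x) x
    rw [hLt, inv_mul_cancel] at this
    exact this.symm
  have h1 : (Ai R ρ i).mulVec (w' 1) = 0 := by
    rw [Ai_sum, ← hp.2]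
    exact Finset.sum_congr rfl fun x _ => by rw [hconst x]
  have h2 := hinj _ (hp.1 1) h1
  apply hw0
  funext x
  rw [hconst x, h2]; rfl

end acts

theorem tri (hA : AcaStmt) (hB : AcbStmt) : TriStmt := by
  intro ℓ _ F _ hF G _ _ R J k ρ i hi L hLU hTS hAL hinj
  classical
  have hch := hF.char
  have hfin := Fintype.ofFinite (R.X (R.a i))
  obtain ⟨-, -, -, hequ, -, -⟩ := hA ℓ F hF G R J k ρ
  have hequ := hequ i hi
  obtain ⟨-, hth, -⟩ := hB ℓ F hF G R J k ρ i hi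
  obtain ⟨n, hn⟩ : ∃ n, n = R.n i := ⟨_, rfl⟩
  obtain ⟨X, hX⟩ : ∃ X, X = R.X (R.a i) := ⟨_, rfl⟩
  obtain ⟨A, hAd⟩ : ∃ A : (Fin k → F) → (Fin k → F), A = (Ai R ρ i).mulVec := ⟨_, rfl⟩
  have hnP : R.n i ∈ R.PJ J := n_mem_PJ R J hi
  have hTP : ∀ t ∈ R.T, t ∈ R.PJ J := fun t ht => T_le_PJ R J ht
  have hXP : ∀ x ∈ R.X (R.a i), x ∈ R.PJ J := fun x hx => X_le_PJ R J i hx
  have hXU : ∀ x ∈ R.X (R.a i), x ∈ R.U := fun x hx => R.X_le_U (R.a_pos i) hx
  have hTac : ∀ t ∈ R.T, ∀ v ∈ L, ac ρ t v ∈ L := hTS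
  have hfix : ∀ x ∈ R.X (R.a i), ∀ v ∈ L, ac ρ x v = v := fun x hx v hv => hLU hv x (hXU x hx)
  -- surjectivity on `L`
  have hsurj : ∀ w ∈ L, ∃ w' ∈ L, (Ai R ρ i).mulVec w' = w := by
    obtain ⟨f, hf⟩ : ∃ f : L →ₗ[F] L, ∀ v : L, (f v : Fin k → F) = (Ai R ρ i).mulVec v :=
      ⟨((Ai R ρ i).mulVecLin.restrict hAL), fun v => rfl⟩
    have hfi : Function.Injective f := by
      rw [injective_iff_map_eq_zero]
      intro v hv
      apply Subtype.ext
      apply hinj v v.2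
      rw [← hf, hv]; rfl
    have hfs : Function.Surjective f := LinearMap.injective_iff_surjective.mp hfi
    intro w hw
    obtain ⟨v, hv⟩ := hfs ⟨w, hw⟩
    exact ⟨v, v.2, by rw [← hf, hv]⟩
  -- the cells
  have hcell : ∀ x : R.X (R.a i), (x : G) ≠ 1 → ∃ y z : R.X (R.a i), y ≠ 1 ∧
      R.n i * x * (R.n i)⁻¹ = y * (R.n i * R.th i x) * z := by
    intro x hx
    obtain ⟨-, y, hy, z, hz, hy1, e⟩ := hth x x.2 hx
    exact ⟨⟨y, hy⟩, ⟨z, hz⟩, fun h => hy1 (congrArg Subtype.val h), e⟩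
  choose! Y Z hY1 hcell using hcell
  have hthT : ∀ x : R.X (R.a i), (x : G) ≠ 1 → R.th i x ∈ R.T := fun x hx =>
    (hth x x.2 hx).1.1
  have hYinj : ∀ x x' : R.X (R.a i), (x : G) ≠ 1 → (x' : G) ≠ 1 → Y x = Y x' → x = x' := by
    intro x x' hx hx' hyy
    have e1 := hcell x hx
    have e2 := hcell x' hx'
    rw [hyy] at e1
    have h1 : R.n i * ((x : G)⁻¹ * x') * (R.n i)⁻¹ =
        (Z x : G)⁻¹ * ((R.th i x)⁻¹ * R.th i x') * Z x' := by
      have : R.n i * ((x : G)⁻¹ * x') * (R.n i)⁻¹ =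
        (R.n i * x * (R.n i)⁻¹)⁻¹ * (R.n i * x' * (R.n i)⁻¹) := by group
      rw [this, e1, e2]; group
    have h2 : R.n i * ((x : G)⁻¹ * x') * (R.n i)⁻¹ ∈ R.B := by
      rw [h1]
      refine R.B.mul_mem (R.B.mul_mem (R.B.inv_mem (R.U_le_B (hXU _ (Z x).2))) (R.T_le_B ?_))
        (R.U_le_B (hXU _ (Z x').2))
      exact R.T.mul_mem (R.T.inv_mem (hthT x hx)) (hthT x' hx')
    have h3 : R.n i * ((x : G)⁻¹ * x') * (R.n i)⁻¹ ∈ R.X (-R.a i) := by
      rw [← R.s_self]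
      exact (R.nX' (R.mem i)).mpr
        ((R.X (R.a i)).mul_mem ((R.X (R.a i)).inv_mem x.2) x'.2)
    have h4 := eq_one_of_mem_B R i h3 h2
    have h5 : (x : G)⁻¹ * x' = (R.n i)⁻¹ * (R.n i * ((x : G)⁻¹ * x') * (R.n i)⁻¹) * R.n i := by
      group
    rw [h4, mul_one, inv_mul_cancel] at h5
    exact Subtype.ext (inv_mul_eq_one.mp h5)
  have h1X : ((1 : R.X (R.a i)) : G) = 1 := rfl
  -- comparison of coefficients
  have hcmp : ∀ w' ∈ L, (Ai R ρ i).mulVec ((Ai R ρ i).mulVec w') =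
      ac ρ (R.n i * R.n i) w' ∧ ∀ x : R.X (R.a i), (x : G) ≠ 1 →
        (Ai R ρ i).mulVec w' = - ac ρ (R.th i x) (ac ρ (R.n i * R.n i) w') := by
    intro w' hw'
    obtain ⟨w, hwe⟩ : ∃ w, w = (Ai R ρ i).mulVec w' := ⟨_, rfl⟩
    have hw : w ∈ L := by rw [hwe]; exact hAL _ hw'
    obtain ⟨w2, hw2e⟩ : ∃ w2, w2 = ac ρ (R.n i * R.n i) w' := ⟨_, rfl⟩
    have hw2 : w2 ∈ L := by rw [hw2e]; exact hTac _ (R.nn i) _ hw'
    rw [← hwe, ← hw2e]
    obtain ⟨w3, hw3, hw3e⟩ := hsurj w2 hw2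
    -- the equation
    have E1 : ac ρ (R.n i) w = ∑ x : R.X (R.a i),
        (if (x : G) = 1 then w2 else ac ρ ((Y x : G) * R.n i) (ac ρ (R.th i x) w2)) := by
      rw [hwe, Ai_sum, ac_sum]
      refine Finset.sum_congr rfl fun x _ => ?_
      have e1 : ac ρ (R.n i) (ac ρ ((x : G) * R.n i) w') =
          ac ρ (R.n i * x * (R.n i)⁻¹) w2 := by
        rw [hw2e, ← ac_mul ρ hnP (Subgroup.mul_mem _ (hXP _ x.2) hnP),
          ← ac_mul ρ (Subgroup.mul_mem _ (Subgroup.mul_mem _ hnP (hXP _ x.2))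
            (Subgroup.inv_mem _ hnP)) (Subgroup.mul_mem _ hnP hnP)]
        congr 1; group
      rw [e1]
      by_cases hx : (x : G) = 1
      · rw [if_pos hx, hx, mul_one, mul_inv_cancel, ac_one]
      · rw [if_neg hx, hcell x hx,
          ac_mul ρ (Subgroup.mul_mem _ (hXP _ (Y x).2) (Subgroup.mul_mem _ hnP
            (hTP _ (hthT x hx)))) (hXP _ (Z x).2), hfix _ (Z x).2 _ hw2, ← mul_assoc,
          ac_mul ρ (Subgroup.mul_mem _ (hXP _ (Y x).2) hnP) (hTP _ (hthT x hx))]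
    -- the coefficients
    obtain ⟨g, hg⟩ : ∃ g : R.X (R.a i) → (Fin k → F), g = fun y =>
      ∑ x : R.X (R.a i), if (x : G) ≠ 1 ∧ Y x = y then ac ρ (R.th i x) w2 else 0 := ⟨_, rfl⟩
    have hgL : ∀ y, g y ∈ L := by
      intro y
      rw [hg]
      apply Submodule.sum_mem
      intro x _
      split_ifs with h
      · exact hTac _ (hthT x h.1) _ hw2
      · exact L.zero_mem
    have E2 : ∑ x : R.X (R.a i), (if (x : G) = 1 then (0 : Fin k → F) else
        ac ρ ((Y x : G) * R.n i) (ac ρ (R.th i x) w2)) =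
        ∑ y : R.X (R.a i), ac ρ ((y : G) * R.n i) (g y) := by
      have e1 : ∀ y : R.X (R.a i), ac ρ ((y : G) * R.n i) (g y) = ∑ x : R.X (R.a i),
          if (x : G) ≠ 1 ∧ Y x = y then ac ρ ((y : G) * R.n i) (ac ρ (R.th i x) w2) else 0 := by
        intro y
        rw [hg, ac_sum]
        refine Finset.sum_congr rfl fun x _ => ?_
        split_ifs
        · rfl
        · exact ac_zero ρ _
      rw [Finset.sum_congr rfl fun y _ => e1 y, Finset.sum_comm]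
      refine Finset.sum_congr rfl fun x _ => ?_
      by_cases hx : (x : G) = 1
      · rw [if_pos hx]
        symm
        apply Finset.sum_eq_zero
        intro y _
        rw [if_neg (fun h => h.1 hx)]
      · rw [if_neg hx, Finset.sum_eq_single (Y x)]
        · rw [if_pos ⟨hx, rfl⟩]
        · intro y _ hy
          rw [if_neg (fun h => hy h.2.symm)]
        · intro h
          exact absurd (Finset.mem_univ _) h
    have E3 : ac ρ (R.n i) w = w2 + ∑ y : R.X (R.a i), ac ρ ((y : G) * R.n i) (g y) := by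
      rw [E1, ← E2]
      have e1 : ∀ x : R.X (R.a i), (if (x : G) = 1 then w2 else
          ac ρ ((Y x : G) * R.n i) (ac ρ (R.th i x) w2)) =
          (if x = 1 then w2 else 0) + (if (x : G) = 1 then (0 : Fin k → F) else
          ac ρ ((Y x : G) * R.n i) (ac ρ (R.th i x) w2)) := by
        intro x
        by_cases hx : (x : G) = 1
        · have hx' : x = 1 := Subtype.ext hx
          rw [if_pos hx, if_pos hx, if_pos hx', add_zero]
        · have hx' : x ≠ 1 := fun h => hx (congrArg Subtype.val h)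
          rw [if_neg hx, if_neg hx, if_neg hx', zero_add]
      rw [Finset.sum_congr rfl fun x _ => e1 x, Finset.sum_add_distrib, Finset.sum_ite_eq',
        if_pos (Finset.mem_univ _)]
    have E4 : w2 = ∑ y : R.X (R.a i), ac ρ ((y : G) * R.n i) w3 := by
      rw [← hw3e, Ai_sum]
    have E5 : ac ρ (R.n i) w = ∑ y : R.X (R.a i), ac ρ ((y : G) * R.n i)
        (if y = 1 then w else 0) := by
      have e1 : ∀ y : R.X (R.a i), ac ρ ((y : G) * R.n i) (if y = 1 then w else 0) =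
          if y = 1 then ac ρ (R.n i) w else 0 := by
        intro y
        by_cases hy : y = 1
        · rw [if_pos hy, if_pos hy, hy, h1X, one_mul]
        · rw [if_neg hy, if_neg hy, ac_zero]
      rw [Finset.sum_congr rfl fun y _ => e1 y, Finset.sum_ite_eq', if_pos (Finset.mem_univ _)]
    have hfr := free ρ hch hi L hinj
      (fun y => (if y = 1 then w else 0) + -(w3 + g y)) (by
        intro y
        apply L.add_mem
        · split_ifs
          · exact hw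
          · exact L.zero_mem
        · exact L.neg_mem (L.add_mem hw3 (hgL y))) (by
        have e1 : ∀ y : R.X (R.a i), ac ρ ((y : G) * R.n i)
            ((if y = 1 then w else 0) + -(w3 + g y)) =
            ac ρ ((y : G) * R.n i) (if y = 1 then w else 0) +
              -(ac ρ ((y : G) * R.n i) w3 + ac ρ ((y : G) * R.n i) (g y)) := by
          intro y
          rw [ac_add, ac_neg, ac_add]
        rw [Finset.sum_congr rfl fun y _ => e1 y, Finset.sum_add_distrib,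
          Finset.sum_neg_distrib, Finset.sum_add_distrib, ← E5, ← E4, E3]
        exact add_neg_cancel _)
    have hco : ∀ y : R.X (R.a i), (if y = 1 then w else 0) = w3 + g y := by
      intro y
      have := congrFun hfr y
      exact add_neg_eq_zero.mp this
    have hg1 : g 1 = 0 := by
      rw [hg]
      apply Finset.sum_eq_zero
      intro x _
      rw [if_neg]
      rintro ⟨hx, h⟩
      exact hY1 x hx h
    have hw3w : w = w3 := by
      have := hco 1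
      rw [if_pos rfl, hg1, add_zero] at this
      exact this
    constructor
    · rw [hw3w]; exact hw3e
    · intro x hx
      have h2 := hco (Y x)
      rw [if_neg (hY1 x hx)] at h2
      have h3 : g (Y x) = ac ρ (R.th i x) w2 := by
        rw [hg]
        beta_reduce
        rw [Finset.sum_eq_single x]
        · rw [if_pos ⟨hx, rfl⟩]
        · intro x' _ hx'
          rw [if_neg]
          rintro ⟨h4, h5⟩
          exact hx' (hYinj x' x h4 hx h5)
        · intro h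
          exact absurd (Finset.mem_univ _) h
      rw [h3, ← hw3w] at h2
      exact eq_neg_of_add_eq_zero_left h2.symm
  -- consequences
  have E3 : ∀ x : R.X (R.a i), (x : G) ≠ 1 → ∀ v ∈ L,
      ac ρ (R.th i x) ((Ai R ρ i).mulVec v) = -v := by
    intro x hx v hv
    obtain ⟨w', hw', rfl⟩ := hsurj v hv
    rw [(hcmp w' hw').1]
    have := (hcmp w' hw').2 x hx
    rw [this, neg_neg]
  have E4 : ∀ x : R.X (R.a i), (x : G) ≠ 1 → ∀ v ∈ L,
      (Ai R ρ i).mulVec (ac ρ (R.th i x) v) = -v := by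
    intro x hx v hv
    obtain ⟨w', hw', rfl⟩ := hsurj v hv
    rw [E3 x hx w' hw', Matrix.mulVec_neg]
  -- the element `x₀`
  obtain ⟨x₀, hx₀⟩ : ∃ x₀ : R.X (R.a i), (x₀ : G) ≠ 1 := by
    by_contra hcon
    push Not at hcon
    apply R.nt i
    rw [Subgroup.eq_bot_iff_forall]
    intro x hx
    exact hcon ⟨x, hx⟩
  obtain ⟨θ, hθ⟩ : ∃ θ, θ = R.th i x₀ := ⟨_, rfl⟩
  have hθTi : θ ∈ R.Ti i := by rw [hθ]; exact (hth x₀ x₀.2 hx₀).1
  have hθT : θ ∈ R.T := hθTi.1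
  -- the subgroup of the elements which act trivially
  obtain ⟨N, hN⟩ : ∃ N : Subgroup G, ∀ t, t ∈ N ↔ t ∈ R.Ti i ∧ ∀ v ∈ L, ac ρ t v = v := by
    refine ⟨{ carrier := {t | t ∈ R.Ti i ∧ ∀ v ∈ L, ac ρ t v = v}
              mul_mem' := ?_, one_mem' := ?_, inv_mem' := ?_ }, fun t => Iff.rfl⟩
    · rintro s t ⟨hs, hs'⟩ ⟨ht, ht'⟩
      refine ⟨Subgroup.mul_mem _ hs ht, fun v hv => ?_⟩
      rw [ac_mul ρ (hTP _ hs.1) (hTP _ ht.1), ht' v hv, hs' v hv]
    · exact ⟨Subgroup.one_mem _, fun v _ => ac_one ρ v⟩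
    · rintro t ⟨ht, ht'⟩
      refine ⟨Subgroup.inv_mem _ ht, fun v hv => ?_⟩
      have h1 : ac ρ (t⁻¹ * t) v = ac ρ t⁻¹ (ac ρ t v) :=
        ac_mul ρ (Subgroup.inv_mem _ (hTP _ ht.1)) (hTP _ ht.1) v
      rw [inv_mul_cancel, ac_one, ht' v hv] at h1
      exact h1.symm
  have hNT : ∀ t ∈ N, t ∈ R.T := fun t ht => ((hN t).mp ht).1.1
  -- `n` normalises `T i`
  have hnL : R.n i ∈ R.X (R.a i) ⊔ R.X (-R.a i) := R.nmem i
  have hTin : ∀ t ∈ R.Ti i, (R.n i)⁻¹ * t * R.n i ∈ R.Ti i := by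
    intro t ht
    refine ⟨?_, Subgroup.mul_mem _ (Subgroup.mul_mem _ (Subgroup.inv_mem _ hnL) ht.2) hnL⟩
    have h1 : (R.n i)⁻¹ * t * R.n i ∈ R.T := by
      rw [← R.nT' (i := i)]
      have : R.n i * ((R.n i)⁻¹ * t * R.n i) * (R.n i)⁻¹ = t := by group
      rw [this]; exact ht.1
    exact h1
  have hTin' : ∀ t ∈ R.Ti i, R.n i * t * (R.n i)⁻¹ ∈ R.Ti i := by
    intro t ht
    exact ⟨R.nT i t ht.1,
      Subgroup.mul_mem _ (Subgroup.mul_mem _ hnL ht.2) (Subgroup.inv_mem _ hnL)⟩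
  have hnnTi : R.n i * R.n i ∈ R.Ti i := ⟨R.nn i, Subgroup.mul_mem _ hnL hnL⟩
  obtain ⟨m, hm⟩ : ∃ m, m = R.n i * θ := ⟨_, rfl⟩
  -- `m ^ 2` acts trivially
  have hmm : m * m ∈ N := by
    have e : m * m = (R.n i * θ * (R.n i)⁻¹) * (R.n i * R.n i) * θ := by rw [hm]; group
    rw [hN, e]
    refine ⟨Subgroup.mul_mem _ (Subgroup.mul_mem _ (hTin' _ hθTi) hnnTi) hθTi, ?_⟩
    intro v hv
    rw [ac_mul ρ (Subgroup.mul_mem _ (hTP _ (hTin' _ hθTi).1) (hTP _ hnnTi.1)) (hTP _ hθT),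
      ac_mul ρ (hTP _ (hTin' _ hθTi).1) (hTP _ hnnTi.1)]
    have hθv : ac ρ θ v ∈ L := hTac _ hθT _ hv
    rw [← (hcmp _ hθv).1]
    have h1 := hequ θ hθT ((Ai R ρ i).mulVec (ac ρ θ v))
    have h2 : (Ai R ρ i).mulVec (ac ρ θ v) = -v := by rw [hθ]; exact E4 x₀ hx₀ v hv
    rw [h2] at h1 ⊢
    change ac ρ (R.n i * θ * (R.n i)⁻¹) ((Ai R ρ i).mulVec (-v)) = v
    have h3 : (Ai R ρ i).mulVec (ac ρ θ (-v)) =
      ac ρ (R.n i * θ * (R.n i)⁻¹) ((Ai R ρ i).mulVec (-v)) := h1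
    rw [← h3, ac_neg, Matrix.mulVec_neg, h2, neg_neg]
  -- `N` is normalised by `m`
  have hmN : ∀ t ∈ N, m⁻¹ * t * m ∈ N := by
    intro t ht
    obtain ⟨ht1, ht2⟩ := (hN t).mp ht
    have e : m⁻¹ * t * m = θ⁻¹ * ((R.n i)⁻¹ * t * R.n i) * θ := by rw [hm]; group
    rw [hN, e]
    have hs := hTin t ht1
    refine ⟨Subgroup.mul_mem _ (Subgroup.mul_mem _ (Subgroup.inv_mem _ hθTi) hs) hθTi, ?_⟩
    intro v hv
    have hθv : ac ρ θ v ∈ L := hTac _ hθT _ hv
    have hsv : ac ρ ((R.n i)⁻¹ * t * R.n i) (ac ρ θ v) = ac ρ θ v := by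
      have h1 : (Ai R ρ i).mulVec (ac ρ ((R.n i)⁻¹ * t * R.n i) (ac ρ θ v) - ac ρ θ v) = 0 := by
        have h2 : (Ai R ρ i).mulVec (ac ρ ((R.n i)⁻¹ * t * R.n i) (ac ρ θ v)) =
            ac ρ (R.n i * ((R.n i)⁻¹ * t * R.n i) * (R.n i)⁻¹)
              ((Ai R ρ i).mulVec (ac ρ θ v)) := hequ _ hs.1 _
        have h3 : R.n i * ((R.n i)⁻¹ * t * R.n i) * (R.n i)⁻¹ = t := by group
        rw [Matrix.mulVec_sub, h2, h3, ht2 _ (hAL _ hθv), sub_self]
      exact sub_eq_zero.mp (hinj _ (L.sub_mem (hTac _ hs.1 _ hθv) hθv) h1)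
    rw [ac_mul ρ (Subgroup.mul_mem _ (Subgroup.inv_mem _ (hTP _ hθT)) (hTP _ hs.1)) (hTP _ hθT),
      ac_mul ρ (Subgroup.inv_mem _ (hTP _ hθT)) (hTP _ hs.1), hsv,
      ← ac_mul ρ (Subgroup.inv_mem _ (hTP _ hθT)) (hTP _ hθT), inv_mul_cancel, ac_one]
  -- the elements `θ⁻¹ θ(x)`
  have hθN : ∀ x : R.X (R.a i), (x : G) ≠ 1 → θ⁻¹ * R.th i x ∈ N := by
    intro x hx
    rw [hN]
    refine ⟨Subgroup.mul_mem _ (Subgroup.inv_mem _ hθTi) (hth x x.2 hx).1, ?_⟩
    intro v hv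
    obtain ⟨u, hu, rfl⟩ := hsurj v hv
    rw [ac_mul ρ (Subgroup.inv_mem _ (hTP _ hθT)) (hTP _ (hthT x hx)), E3 x hx u hu]
    have h1 : ac ρ θ ((Ai R ρ i).mulVec u) = -u := by rw [hθ]; exact E3 x₀ hx₀ u hu
    rw [← h1, ← ac_mul ρ (Subgroup.inv_mem _ (hTP _ hθT)) (hTP _ hθT), inv_mul_cancel, ac_one]
  -- conjugation by elements of the torus
  have htX : ∀ t ∈ R.T, ∀ x ∈ R.X (R.a i), t * x * t⁻¹ ∈ R.X (R.a i) :=
    fun t ht x hx => R.tX t ht _ (R.mem i) x hx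
  have htX' : ∀ t ∈ R.T, ∀ x ∈ R.X (R.a i), t⁻¹ * x * t ∈ R.X (R.a i) := by
    intro t ht x hx
    have := htX t⁻¹ (R.T.inv_mem ht) x hx
    rwa [inv_inv] at this
  -- the big cell decomposition
  obtain ⟨Om, hOm⟩ : ∃ Om : Set G, ∀ g, g ∈ Om ↔
      (∃ x ∈ R.X (R.a i), ∃ t ∈ N, g = x * t) ∨
      ∃ x ∈ R.X (R.a i), ∃ t ∈ N, ∃ y ∈ R.X (R.a i), g = x * (m * t) * y :=
    ⟨{g | (∃ x ∈ R.X (R.a i), ∃ t ∈ N, g = x * t) ∨
      ∃ x ∈ R.X (R.a i), ∃ t ∈ N, ∃ y ∈ R.X (R.a i), g = x * (m * t) * y}, fun g => Iff.rfl⟩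
  have hOX : ∀ z ∈ R.X (R.a i), ∀ g ∈ Om, z * g ∈ Om := by
    intro z hz g hg
    rw [hOm] at hg ⊢
    rcases hg with ⟨x, hx, t, ht, rfl⟩ | ⟨x, hx, t, ht, y, hy, rfl⟩
    · exact Or.inl ⟨z * x, Subgroup.mul_mem _ hz hx, t, ht, by group⟩
    · exact Or.inr ⟨z * x, Subgroup.mul_mem _ hz hx, t, ht, y, hy, by group⟩
  have hON : ∀ s ∈ N, ∀ g ∈ Om, s * g ∈ Om := by
    intro s hs g hg
    rw [hOm] at hg ⊢
    rcases hg with ⟨x, hx, t, ht, rfl⟩ | ⟨x, hx, t, ht, y, hy, rfl⟩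
    · exact Or.inl ⟨s * x * s⁻¹, htX _ (hNT _ hs) _ hx, s * t, Subgroup.mul_mem _ hs ht,
        by group⟩
    · exact Or.inr ⟨s * x * s⁻¹, htX _ (hNT _ hs) _ hx, (m⁻¹ * s * m) * t,
        Subgroup.mul_mem _ (hmN _ hs) ht, y, hy, by group⟩
  have hOm' : ∀ g ∈ Om, m * g ∈ Om := by
    intro g hg
    rw [hOm] at hg
    rcases hg with ⟨x, hx, t, ht, rfl⟩ | ⟨x, hx, t, ht, y, hy, rfl⟩
    · rw [hOm]
      exact Or.inr ⟨1, Subgroup.one_mem _, t, ht, t⁻¹ * x * t, htX' _ (hNT _ ht) _ hx, by group⟩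
    · by_cases hx1 : x = 1
      · rw [hOm, hx1]
        refine Or.inl ⟨(m * m * t) * y * (m * m * t)⁻¹, htX _ ?_ _ hy, m * m * t,
          Subgroup.mul_mem _ hmm ht, by group⟩
        exact hNT _ (Subgroup.mul_mem _ hmm ht)
      · -- `x₁ = θ x θ⁻¹`
        have hx1X : θ * x * θ⁻¹ ∈ R.X (R.a i) := htX _ hθT _ hx
        have hx1n : θ * x * θ⁻¹ ≠ 1 := by
          intro h
          apply hx1
          have : x = θ⁻¹ * (θ * x * θ⁻¹) * θ := by group
          rw [this, h]; group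
        have hc := hcell ⟨θ * x * θ⁻¹, hx1X⟩ hx1n
        have hc' : R.n i * (θ * x * θ⁻¹) * (R.n i)⁻¹ =
          (Y ⟨θ * x * θ⁻¹, hx1X⟩ : G) * (R.n i * R.th i (θ * x * θ⁻¹)) *
            (Z ⟨θ * x * θ⁻¹, hx1X⟩ : G) := hc
        have hs : m * m * t ∈ N := Subgroup.mul_mem _ hmm ht
        have e : m * (x * (m * t) * y) = (Y ⟨θ * x * θ⁻¹, hx1X⟩ : G) *
            (m * ((θ⁻¹ * R.th i (θ * x * θ⁻¹)) * (m * m * t))) *
            (((m * m * t)⁻¹ * (Z ⟨θ * x * θ⁻¹, hx1X⟩ : G) * (m * m * t)) * y) := by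
          have e1 : m * (x * (m * t) * y) =
              (R.n i * (θ * x * θ⁻¹) * (R.n i)⁻¹) * (m * m * t) * y := by rw [hm]; group
          rw [e1, hc', hm]; group
        rw [hOm, e]
        refine Or.inr ⟨_, (Y ⟨θ * x * θ⁻¹, hx1X⟩).2, _,
          Subgroup.mul_mem _ (hθN ⟨θ * x * θ⁻¹, hx1X⟩ hx1n) hs, _,
          Subgroup.mul_mem _ (htX' _ (hNT _ hs) _ (Z ⟨θ * x * θ⁻¹, hx1X⟩).2) hy, rfl⟩
  have hO1 : (1 : G) ∈ Om := by
    rw [hOm]
    exact Or.inl ⟨1, Subgroup.one_mem _, 1, Subgroup.one_mem _, by group⟩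
  -- the generated group
  have hgen : ∀ g ∈ Subgroup.closure ((R.X (R.a i) : Set G) ∪ (N : Set G) ∪ {m}), g ∈ Om := by
    intro g hg
    induction hg using Subgroup.closure_induction_left with
    | one => exact hO1
    | mul_left x hx y _ hy =>
      rcases hx with (hx | hx) | hx
      · exact hOX x hx y hy
      · exact hON x hx y hy
      · rw [Set.mem_singleton_iff.mp hx]; exact hOm' y hy
    | inv_mul_cancel x hx y _ hy =>
      rcases hx with (hx | hx) | hx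
      · exact hOX _ (Subgroup.inv_mem _ hx) y hy
      · exact hON _ (Subgroup.inv_mem _ hx) y hy
      · rw [Set.mem_singleton_iff.mp hx]
        have e : m⁻¹ * y = (m * m)⁻¹ * (m * y) := by group
        rw [e]
        exact hON _ (Subgroup.inv_mem _ hmm) _ (hOm' y hy)
  have hLi : R.X (R.a i) ⊔ R.X (-R.a i) ≤
      Subgroup.closure ((R.X (R.a i) : Set G) ∪ (N : Set G) ∪ {m}) := by
    have hXc : ∀ x ∈ R.X (R.a i), x ∈
        Subgroup.closure ((R.X (R.a i) : Set G) ∪ (N : Set G) ∪ {m}) := fun x hx =>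
      Subgroup.subset_closure (Or.inl (Or.inl hx))
    have hmc : m ∈ Subgroup.closure ((R.X (R.a i) : Set G) ∪ (N : Set G) ∪ {m}) :=
      Subgroup.subset_closure (Or.inr rfl)
    apply sup_le
    · exact hXc
    · intro v hv
      have h1 : (R.n i)⁻¹ * v * R.n i ∈ R.X (R.a i) := by
        rw [← R.nX' (i := i) (R.mem i), R.s_self]
        have : R.n i * ((R.n i)⁻¹ * v * R.n i) * (R.n i)⁻¹ = v := by group
        rw [this]; exact hv
      have h2 : v = m * (θ⁻¹ * ((R.n i)⁻¹ * v * R.n i) * θ) * m⁻¹ := by rw [hm]; group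
      rw [h2]
      exact Subgroup.mul_mem _ (Subgroup.mul_mem _ hmc (hXc _ (htX' _ hθT _ h1)))
        (Subgroup.inv_mem _ hmc)
  have hTi : ∀ t ∈ R.Ti i, t ∈ N := by
    intro t ht
    have h1 := hgen t (hLi ht.2)
    rw [hOm] at h1
    rcases h1 with ⟨x, hx, s, hs, e⟩ | ⟨x, hx, s, hs, y, hy, e⟩
    · have hx1 : x = 1 := by
        have h2 : x ∈ R.U ⊓ (R.T ⊔ R.V) := by
          refine ⟨hXU x hx, ?_⟩
          have : x = t * s⁻¹ := by rw [e]; group
          rw [this]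
          exact Subgroup.mem_sup_left (R.T.mul_mem ht.1 (R.T.inv_mem (hNT _ hs)))
        rw [R.UV] at h2
        exact Subgroup.mem_bot.mp h2
      rw [e, hx1, one_mul]; exact hs
    · exfalso
      apply n_not_mem_B R i
      have : R.n i = x⁻¹ * t * y⁻¹ * s⁻¹ * θ⁻¹ := by rw [e, hm]; group
      rw [this]
      refine R.B.mul_mem (R.B.mul_mem (R.B.mul_mem (R.B.mul_mem (R.B.inv_mem
        (R.U_le_B (hXU _ hx))) (R.T_le_B ht.1)) (R.B.inv_mem (R.U_le_B (hXU _ hy))))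
        (R.B.inv_mem (R.T_le_B (hNT _ hs)))) (R.B.inv_mem (R.T_le_B hθT))
  refine ⟨fun t ht v hv => ((hN t).mp (hTi t ht)).2 v hv, ?_⟩
  intro v hv
  have h1 : ac ρ θ ((Ai R ρ i).mulVec v) = -v := by rw [hθ]; exact E3 x₀ hx₀ v hv
  rw [((hN θ).mp (hTi θ hθTi)).2 _ (hAL _ hv)] at h1
  exact h1

end Pool.Agent.PP.X1.H76
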